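import Pool.Agent.H297.WP.Awc

/-!
MP_78bba1_al (Alperin's weight conjecture), summed over the blocks of a group.

Notation (`Pool/Agent/Y63/AWC/Defs.lean`, `Pool/Agent/Y63/NV/Main.lean`,
`Pool/Agent/Y63/KR/Surf.lean`, `Pool/Agent/H297/WP/Wr.lean`).
* `numRegularClasses p G` is the number of conjugacy classes of `p`-regular elements of `G`, that is
  `l(kG)`, the number of simple `kG`-modules;
* `numWeights p G = ∑_Q z(k[N_G(Q)/Q])`, the number of `G`-orbits of weights of `G`; the sum is over
  representatives `Q` of the classes of `p`-subgroups, and `numDefectZero p H` is the number of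
  irreducible characters of `H` of defect zero, that is `z(kH)`;
* `Closed p X`: the class `X` of groups is closed under isomorphisms, subgroups, and quotients by
  normal `p`-subgroups;
* `Wr p G` is the wreath product `G ≀ C_p` (Mathlib's regular wreath product of `G` with the cyclic
  group of order `p`);
* `numHom g H` is the number of homomorphisms from the fundamental group of the closed orientable
  surface of genus `g` to `H`: the number of the `2g`-tuples with `∏ a_i b_i a_i⁻¹ b_i⁻¹ = 1`.
-/

open scoped Classical

namespace Pool.Agent.Results.MP_78bba1_al.ModP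

open Pool.Agent.Y63.AWC (pSubgroupSetoid numWeights numRegularClasses)
open Pool.Agent.Y63.NV (Closed)
open Pool.Agent.Y63.KR (numHom)
open Pool.Agent.H297.WP

/-- **A congruence modulo `p` decides the weight conjecture.** Let `p` be a prime, `g ≥ 2` with
`p - 1 ∣ 2 (g - 1)` (`g = 2` for `p ≤ 3`), and let `X` be a class of groups which is closed under
isomorphisms, subgroups, quotients by normal `p`-subgroups and `G ↦ G ≀ C_p`. Then
`l(kG) = ∑_Q z(k[N_G(Q)/Q])` holds for all finite groups `G` in `X` if and only if
`l(kG) ≡ ∑_Q |Hom(π₁(Σ_g), N_G(Q)/Q)| / |N_G(Q)/Q| (mod p)` for all finite groups `G` in `X`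
(the quotients are integers). The second condition does not mention characters or modules. -/
theorem result (p : ℕ) [Fact p.Prime] (g : ℕ) (hg : 2 ≤ g) (hp : p - 1 ∣ 2 * (g - 1))
    (X : ∀ (H : Type) [Group H], Prop) (hX : Closed p X)
    (hW : ∀ (H : Type) [Group H] [Finite H], X H → X (Wr p H)) :
    (∀ (G : Type) [Group G] [Finite G], X G → numRegularClasses p G = numWeights p G) ↔
      ∀ (G : Type) [Group G] [Finite G], X G →
        numRegularClasses p G ≡ ∑ᶠ c : Quotient (pSubgroupSetoid p G),
          numHom g (Subgroup.normalizer (c.out.1 : Set G) ⧸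
            c.out.1.subgroupOf (Subgroup.normalizer (c.out.1 : Set G))) /
          Nat.card (Subgroup.normalizer (c.out.1 : Set G) ⧸
            c.out.1.subgroupOf (Subgroup.normalizer (c.out.1 : Set G))) [MOD p] := by
  obtain ⟨m, rfl⟩ : ∃ m, g = m + 1 := ⟨g - 1, by omega⟩
  have hm0 : m ≠ 0 := by omega
  have hm : p - 1 ∣ 2 * m := hp
  rw [awc_class X hX hW]
  constructor
  · intro h G _ _ hG
    exact (h G hG).trans (numWeights_mod hm0 hm G)
  · intro h G _ _ hG
    exact (h G hG).trans (numWeights_mod hm0 hm G).symm

end Pool.Agent.Results.MP_78bba1_al.ModP
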