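import Pool.Agent.H297.WP.B10

/-!
MP_78bba1_al (Alperin's weight conjecture), for single blocks.

* `IsClassFun`, `conv`, `IsBlock`, `centralValue` (Pool/Agent/Y63/NV/Defs.lean): a block `B` of `G` is
  given by its central character, a homomorphism of algebras from the centre of `F[G]` (the class
  functions with the convolution) to the algebraically closed field `F` of characteristic `p`;
  `centralValue red χ` is the reduction of the central character of `χ`, for a reduction map `red`
  from the algebraic integers to `F`.
* `numIrrBlock B` (Pool/Agent/Y63/NV/Bawc.lean) is `l(B)`, the number of the simple `FG`-modules in `B`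
  (counted by their trace functions).
* `numWtBlock p red Q B` is the number of the irreducible characters of defect zero of `N_G(Q)/Q` whose
  block, seen as a block of `N_G(Q)`, induces `B`; these are the weights `(Q, w)` of `B`.
* `Closed p X`: the class `X` of groups is closed under isomorphisms, subgroups, and quotients by
  normal `p`-subgroups; `Wr p G` is the wreath product `G ≀ C_p`.
-/

set_option autoImplicit false

namespace Pool.Agent.Results.MP_78bba1_al.ModPBlocks

open Pool.Agent.Y63.NV
open Pool.Agent.Y63.AWC (pSubgroupSetoid)
open Pool.Agent.H297.WP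

/-- **The blockwise weight conjecture is decided by congruences modulo `p`.** Let `X` be a class of
groups which is closed under isomorphisms, subgroups, quotients by normal `p`-subgroups and
`G ↦ G ≀ C_p` (for example all groups). Then `l(B) = ∑_Q z(k[N_G(Q)/Q] Br_Q(b))` for all blocks `B` of
all finite groups in `X` if and only if `l(B) ≡ ∑_Q z(k[N_G(Q)/Q] Br_Q(b)) (mod p)` for all blocks `B`
of all finite groups in `X`. -/
theorem result (p : ℕ) [Fact p.Prime] (F : Type) [Field F] [IsAlgClosed F] [CharP F p]
    (red : integralClosure ℤ ℂ →+* F) (X : ∀ (H : Type) [Group H], Prop) (hX : Closed p X)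
    (hW : ∀ (H : Type) [Group H] [Finite H], X H → X (Wr p H)) :
    (∀ (G : Type) [Group G] [Finite G], X G → ∀ B : (G → F) → F, IsBlock B →
      numIrrBlock B = ∑ᶠ c : Quotient (pSubgroupSetoid p G), numWtBlock p red c.out.1 B) ↔
    ∀ (G : Type) [Group G] [Finite G], X G → ∀ B : (G → F) → F, IsBlock B →
      numIrrBlock B ≡ ∑ᶠ c : Quotient (pSubgroupSetoid p G), numWtBlock p red c.out.1 B
        [MOD p] := by
  refine (bawc_class (p := p) red X hX hW).trans ?_
  constructor
  · intro h G _ _ hG B hB
    exact (Nat.modEq_iff_dvd.2 (h G hG B hB)).symm
  · intro h G _ _ hG B hB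
    exact Nat.modEq_iff_dvd.1 (h G hG B hB).symm

end Pool.Agent.Results.MP_78bba1_al.ModPBlocks
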